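import Mathlib

open CategoryTheory MonoidalCategory Limits Pretriangulated Triangulated

namespace Pool.Agent.Lib.MP_93437d_al

universe w v u

/-- A finite tensor category over the field `k` (on top of: abelian, `k`-linear, monoidal with
bilinear tensor product, rigid): finite-dimensional Hom spaces, all objects of finite length
(noetherian and artinian), finitely many simple objects up to isomorphism, enough projectives,
and `End (𝟙) = k`. -/
class IsFiniteTensorCategory (k : Type*) [Field k] (C : Type u) [Category.{v} C] [Abelian C]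
    [Linear k C] [MonoidalCategory C] [MonoidalPreadditive C] [MonoidalLinear k C]
    [RigidCategory C] : Prop where
  finite_hom : ∀ X Y : C, Module.Finite k (X ⟶ Y)
  noetherian : ∀ X : C, IsNoetherianObject X
  artinian : ∀ X : C, IsArtinianObject X
  finite_simples : ∃ S : Finset C, ∀ X : C, Simple X → ∃ Y ∈ S, Nonempty (X ≅ Y)
  enough_projectives : EnoughProjectives C
  end_unit : Function.Bijective (fun c : k => (c • 𝟙 (𝟙_ C) : 𝟙_ C ⟶ 𝟙_ C))

/-- The inclusion of `C` into its bounded derived category (complexes in degree `0`). -/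
noncomputable def heartIncl (C : Type u) [Category.{v} C] [Abelian C]
    [HasDerivedCategory.{w} C] : C ⥤ DerivedCategory.Bounded C :=
  (DerivedCategory.TStructure.t (C := C)).bounded.lift (DerivedCategory.singleFunctor C 0)
    (fun _ => ⟨⟨0, inferInstance⟩, ⟨0, inferInstance⟩⟩)

section pow

variable {T : Type u} [Category.{v} T] [MonoidalCategory T]

/-- The tensor power `X ^ ⊗ n`. -/
def tpow (X : T) : ℕ → T
  | 0 => 𝟙_ T
  | n + 1 => tpow X n ⊗ X

/-- The tensor power `f ^ ⊗ n : 𝟙 ⟶ X ^ ⊗ n` of a morphism `f : 𝟙 ⟶ X`. -/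
def tpowHom {X : T} (f : 𝟙_ T ⟶ X) : ∀ n : ℕ, 𝟙_ T ⟶ tpow X n
  | 0 => 𝟙 (𝟙_ T)
  | n + 1 => (λ_ (𝟙_ T)).inv ≫ (tpowHom f n ⊗ₘ f)

/-- `f : 𝟙 ⟶ X` is tensor-nilpotent on `Z`: `f ^ ⊗ n ⊗ id_Z = 0` for some `n ≥ 1`. -/
def IsTensorNilpotentOn [Preadditive T] {X : T} (f : 𝟙_ T ⟶ X) (Z : T) : Prop :=
  ∃ n : ℕ, 1 ≤ n ∧ tpowHom f n ▷ Z = 0

end pow

end Pool.Agent.Lib.MP_93437d_al
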