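import Pool.Agent.Lib.MP_93437d_al.UnitSimple

open CategoryTheory MonoidalCategory Limits Pretriangulated Triangulated

namespace Pool.Agent.Lib.MP_93437d_al

universe v u v' u'

variable {T : Type u} [Category.{v} T] [Preadditive T] [HasZeroObject T] [HasShift T ℤ]
  [∀ n : ℤ, (shiftFunctor T n).Additive] [Pretriangulated T] [IsTriangulated T]

section devissage

variable (t : TStructure T) {C : Type u'} [Category.{v'} C] (i : C ⥤ T)
  (hess : ∀ X, t.IsLE X 0 → t.IsGE X 0 → ∃ A : C, Nonempty (X ≅ i.obj A))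

include hess

omit [IsTriangulated T] in
theorem devissage_base (P : ObjectProperty T) [P.IsClosedUnderIsomorphisms] (j : ℤ)
    (h : ∀ A : C, P ((i.obj A)⟦-j⟧)) (X : T) (h1 : t.IsGE X j) (h2 : t.IsLE X j) : P X := by
  have h3 : t.IsLE (X⟦j⟧) 0 := t.isLE_shift X j j 0
  have h4 : t.IsGE (X⟦j⟧) 0 := t.isGE_shift X j j 0
  obtain ⟨A, ⟨e⟩⟩ := hess _ h3 h4
  let e2 : X ≅ (i.obj A)⟦-j⟧ :=
    ((shiftEquiv T j).unitIso.app X) ≪≫ (shiftFunctor T (-j)).mapIso e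
  exact P.prop_of_iso e2.symm (h A)

theorem devissage (P : ObjectProperty T) [P.IsClosedUnderIsomorphisms]
    (hext : ∀ Tr : Triangle T, Tr ∈ distTriang T → P Tr.obj₁ → P Tr.obj₃ → P Tr.obj₂)
    (a : ℤ) (n : ℕ) (h : ∀ j : ℤ, a ≤ j → j ≤ a + n → ∀ A : C, P ((i.obj A)⟦-j⟧)) :
    ∀ X : T, t.IsGE X a → t.IsLE X (a + n) → P X := by
  induction n with
  | zero =>
    intro X h1 h2
    rw [Nat.cast_zero, add_zero] at h2
    exact devissage_base t i hess P a (h a le_rfl (by simp)) X h1 h2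
  | succ n ih =>
    intro X h1 h2
    have hd := t.triangleLEGE_distinguished (a + n) (a + n + 1) rfl X
    have h3 : t.IsGE ((t.truncLE (a + n)).obj X) a := inferInstance
    have h4 : t.IsLE ((t.truncLE (a + n)).obj X) (a + n) := inferInstance
    have h5 : t.IsGE ((t.truncGE (a + n + 1)).obj X) (a + n + 1) := inferInstance
    have h2' : t.IsLE X (a + n + 1) := by
      have : (a + ((n + 1 : ℕ) : ℤ)) = a + n + 1 := by push_cast; ring
      rwa [this] at h2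
    have h6 : t.IsLE ((t.truncGE (a + n + 1)).obj X) (a + n + 1) := inferInstance
    refine hext _ hd ?_ ?_
    · exact ih (fun j hj hj' A => h j hj (by push_cast; linarith) A) _ h3 h4
    · exact devissage_base t i hess P (a + n + 1)
        (h (a + n + 1) (by linarith [Int.natCast_nonneg n]) (by push_cast; linarith)) _ h5 h6

end devissage

/-- `m ≫ mor₁ = 0` implies `m = 0` for `m` out of a `≤ 0` object if the third vertex is `≥ 1`. -/
theorem inj_of_triangle (t : TStructure T) (Tr : Triangle T) (hTr : Tr ∈ distTriang T)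
    (h3 : t.IsGE Tr.obj₃ 1) {M : T} (hM : t.IsLE M 0) (m : M ⟶ Tr.obj₁)
    (hm : m ≫ Tr.mor₁ = 0) : m = 0 := by
  have h1 : m⟦(1 : ℤ)⟧' ≫ Tr.mor₁⟦(1 : ℤ)⟧' = 0 := by
    rw [← Functor.map_comp, hm, Functor.map_zero]
  obtain ⟨g, hg⟩ := Triangle.coyoneda_exact₁ Tr hTr _ h1
  have h4 : t.IsLE (M⟦(1 : ℤ)⟧) (-1) := t.isLE_shift M 0 1 (-1)
  have h5 : g = 0 := t.zero_of_isLE_of_isGE g (-1) 1 (by norm_num) h4 h3
  rw [h5, zero_comp] at hg
  exact (shiftFunctor T (1 : ℤ)).map_injective (by rw [hg, Functor.map_zero])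

section tensor

variable [MonoidalCategory T] [∀ X : T, (tensorLeft X).CommShift ℤ]
  [∀ X : T, (tensorLeft X).IsTriangulated] [∀ X : T, (tensorRight X).CommShift ℤ]
  [∀ X : T, (tensorRight X).IsTriangulated]

variable (t : TStructure T) (hb : ∀ X : T, t.bounded X)
  {C : Type u'} [Category.{v'} C] [Preadditive C] [MonoidalCategory C] (i : C ⥤ T)
  [i.Monoidal]
  (hi : ∀ A : C, t.IsLE (i.obj A) 0 ∧ t.IsGE (i.obj A) 0)
  (hess : ∀ X, t.IsLE X 0 → t.IsGE X 0 → ∃ A : C, Nonempty (X ≅ i.obj A))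

/-- the shift commutes with the tensor product in the second variable -/
noncomputable def shiftLeftIso (U V : T) (n : ℤ) : U ⊗ (V⟦n⟧) ≅ (U ⊗ V)⟦n⟧ :=
  ((tensorLeft U).commShiftIso n).app V

/-- the shift commutes with the tensor product in the first variable -/
noncomputable def shiftRightIso (U V : T) (n : ℤ) : (U⟦n⟧) ⊗ V ≅ (U ⊗ V)⟦n⟧ :=
  ((tensorRight V).commShiftIso n).app U

include hb

include hi hess

theorem isGE_heart_tensor (A : C) (V : T) (b : ℤ) (hV : t.IsGE V b) :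
    t.IsGE (i.obj A ⊗ V) b := by
  obtain ⟨⟨c, hc⟩, ⟨d, hd⟩⟩ := hb V
  let n : ℕ := (d - b).toNat
  have hd' : t.IsLE V (b + n) := t.isLE_of_le V d _ (by simp only [n]; omega)
  let P : ObjectProperty T := fun V => t.IsGE (i.obj A ⊗ V) b
  haveI : P.IsClosedUnderIsomorphisms := ⟨fun {X Y} e hX => by
    have hX' : t.IsGE (i.obj A ⊗ X) b := hX
    exact t.isGE_of_iso (whiskerLeftIso (i.obj A) e) b⟩
  refine devissage t i hess P ?_ b n ?_ V hV hd'
  · intro Tr hTr h1 h3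
    have := (tensorLeft (i.obj A)).map_distinguished Tr hTr
    exact t.isGE₂ _ this b h1 h3
  · intro j hj _ B
    have h0 : t.IsGE (i.obj (A ⊗ B)) 0 := (hi _).2
    have h1 : t.IsGE ((i.obj (A ⊗ B))⟦-j⟧) j := t.isGE_shift _ 0 (-j) j
    have h2 : t.IsGE ((i.obj (A ⊗ B))⟦-j⟧) b := t.isGE_of_ge _ b j hj
    let e : (i.obj (A ⊗ B))⟦-j⟧ ≅ i.obj A ⊗ ((i.obj B)⟦-j⟧) :=
      (shiftFunctor T (-j)).mapIso (Functor.Monoidal.μIso i A B).symm ≪≫
        (shiftLeftIso (i.obj A) (i.obj B) (-j)).symm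
    exact t.isGE_of_iso e b

theorem isGE_tensor (U V : T) (a b : ℤ) (hU : t.IsGE U a) (hV : t.IsGE V b) :
    t.IsGE (U ⊗ V) (a + b) := by
  obtain ⟨⟨c, hc⟩, ⟨d, hd⟩⟩ := hb U
  let n : ℕ := (d - a).toNat
  have hd' : t.IsLE U (a + n) := t.isLE_of_le U d _ (by simp only [n]; omega)
  let P : ObjectProperty T := fun U => t.IsGE (U ⊗ V) (a + b)
  haveI : P.IsClosedUnderIsomorphisms := ⟨fun {X Y} e hX => by
    have hX' : t.IsGE (X ⊗ V) (a + b) := hX
    exact t.isGE_of_iso (whiskerRightIso e V) (a + b)⟩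
  refine devissage t i hess P ?_ a n ?_ U hU hd'
  · intro Tr hTr h1 h3
    have := (tensorRight V).map_distinguished Tr hTr
    exact t.isGE₂ _ this (a + b) h1 h3
  · intro j hj _ A
    have h0 : t.IsGE (i.obj A ⊗ V) b := isGE_heart_tensor t hb i hi hess A V b hV
    have h1 : t.IsGE ((i.obj A ⊗ V)⟦-j⟧) (b + j) := t.isGE_shift _ b (-j) (b + j)
    have h2 : t.IsGE ((i.obj A ⊗ V)⟦-j⟧) (a + b) := t.isGE_of_ge _ (a + b) (b + j) (by omega)
    exact t.isGE_of_iso (shiftRightIso (i.obj A) V (-j)).symm (a + b)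

omit hi in
/-- a morphism from a projective of the heart to `W ⊗ P` with `W ≤ -1` vanishes -/
theorem proj_vanish (P : C)
    (hproj : ∀ (B : C) (m : ℤ), 0 < m → ∀ f : i.obj P ⟶ (i.obj B)⟦m⟧, f = 0)
    (W : T) (hW : t.IsLE W (-1)) (f : i.obj P ⟶ W ⊗ i.obj P) : f = 0 := by
  obtain ⟨⟨c, hc⟩, ⟨d, hd⟩⟩ := hb W
  let a : ℤ := min c (-1)
  have hc' : t.IsGE W a := t.isGE_of_ge W a c (min_le_left _ _)
  let n : ℕ := (-1 - a).toNat
  have ha : a ≤ -1 := min_le_right _ _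
  have hn : a + n = -1 := by simp only [n]; omega
  have hd' : t.IsLE W (a + n) := by rw [hn]; exact hW
  let Q : ObjectProperty T := fun W => ∀ f : i.obj P ⟶ W ⊗ i.obj P, f = 0
  haveI : Q.IsClosedUnderIsomorphisms := ⟨fun {X Y} e hX f => by
    have := hX (f ≫ e.inv ▷ (i.obj P))
    have h2 : f = (f ≫ e.inv ▷ (i.obj P)) ≫ e.hom ▷ (i.obj P) := by
      rw [Category.assoc, ← MonoidalCategory.comp_whiskerRight, e.inv_hom_id]; simp
    rw [h2, this, zero_comp]⟩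
  refine devissage t i hess Q ?_ a n ?_ W hc' hd' f
  · intro Tr hTr h1 h3 f
    have hd := (tensorRight (i.obj P)).map_distinguished Tr hTr
    obtain ⟨g, hg⟩ : ∃ g : i.obj P ⟶ Tr.obj₁ ⊗ i.obj P, f = g ≫ Tr.mor₁ ▷ i.obj P :=
      Triangle.coyoneda_exact₂ _ hd f (h3 _)
    rw [hg, h1 g, zero_comp]
  · intro j hj hj' A f
    have hj2 : 0 < -j := by omega
    let e : ((i.obj A)⟦-j⟧) ⊗ i.obj P ≅ (i.obj (A ⊗ P))⟦-j⟧ :=
      shiftRightIso (i.obj A) (i.obj P) (-j) ≪≫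
        (shiftFunctor T (-j)).mapIso (Functor.Monoidal.μIso i A P)
    have := hproj (A ⊗ P) (-j) hj2 (f ≫ e.hom)
    rw [← cancel_mono e.hom, this, zero_comp]

/-- Core of the argument. -/
theorem core [i.Full] [i.Faithful] [i.PreservesZeroMorphisms] (P : C)
    (hproj : ∀ (B : C) (m : ℤ), 0 < m → ∀ f : i.obj P ⟶ (i.obj B)⟦m⟧, f = 0)
    (hdom : ∀ (A B : C) (a : 𝟙_ C ⟶ A) (b : 𝟙_ C ⟶ B), a ≠ 0 → b ≠ 0 → a ⊗ₘ b ≠ 0)
    {X Y : T} (f : 𝟙_ T ⟶ X) (g : 𝟙_ T ⟶ Y) (hfg : f ⊗ₘ g = 0) :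
    f ▷ i.obj P = 0 ∨ g ▷ i.obj P = 0 := by
  have h1 : t.IsLE (𝟙_ T) 0 := by
    have := (hi (𝟙_ C)).1
    exact t.isLE_of_iso (Functor.Monoidal.εIso i).symm 0
  have h11 : t.IsLE (𝟙_ T ⊗ 𝟙_ T) 0 := t.isLE_of_iso (λ_ (𝟙_ T)).symm 0
  -- Case A
  have caseA : ∀ {Z : T} (f : 𝟙_ T ⟶ Z), f ≫ (t.truncGEπ 0).app Z = 0 → f ▷ i.obj P = 0 := by
    intro Z f hf
    have hd := t.triangleLEGE_distinguished (-1) 0 (by norm_num) Z
    obtain ⟨v, hv⟩ := Triangle.coyoneda_exact₂ _ hd f hf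
    have hv' : f = v ≫ (t.truncLEι (-1)).app Z := hv
    have h2 : (λ_ (i.obj P)).inv ≫ v ▷ i.obj P = 0 :=
      proj_vanish t hb i hess P hproj _ (by
        change t.IsLE ((t.truncLE (-1)).obj Z) (-1)
        infer_instance) _
    have h3 : v ▷ i.obj P = 0 := by
      rw [← cancel_epi (λ_ (i.obj P)).inv, h2, comp_zero]
    rw [hv', MonoidalCategory.comp_whiskerRight, h3, zero_comp]
  -- factorization through the heart
  have fac : ∀ {Z : T} (f : 𝟙_ T ⟶ Z), f ≫ (t.truncGEπ 0).app Z ≠ 0 →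
      ∃ (A : C) (a : 𝟙_ C ⟶ A) (X₂ X₃ : T) (u : X₂ ⟶ (t.truncGE 0).obj Z)
        (v : (t.truncGE 0).obj Z ⟶ X₃) (w : X₃ ⟶ X₂⟦(1 : ℤ)⟧)
        (_ : Triangle.mk u v w ∈ distTriang T)
        (e : i.obj A ≅ X₂), a ≠ 0 ∧ t.IsGE X₃ 1 ∧ t.IsGE X₂ 0 ∧
        f ≫ (t.truncGEπ 0).app Z =
          ((Functor.Monoidal.εIso i).hom ≫ i.map a ≫ e.hom) ≫ u := by
    intro Z f hf
    have hd := t.triangleLEGE_distinguished 0 1 (by norm_num) ((t.truncGE 0).obj Z)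
    have hz : (f ≫ (t.truncGEπ 0).app Z) ≫ (t.truncGEπ 1).app ((t.truncGE 0).obj Z) = 0 := by
      have h3 : t.IsGE ((t.truncGE 1).obj ((t.truncGE 0).obj Z)) 1 := inferInstance
      exact t.zero_of_isLE_of_isGE _ 0 1 (by norm_num) h1 h3
    obtain ⟨h, hh⟩ : ∃ h : 𝟙_ T ⟶ (t.truncLE 0).obj ((t.truncGE 0).obj Z),
        f ≫ (t.truncGEπ 0).app Z = h ≫ (t.truncLEι 0).app ((t.truncGE 0).obj Z) :=
      Triangle.coyoneda_exact₂ _ hd _ hz
    have hle : t.IsLE ((t.truncLE 0).obj ((t.truncGE 0).obj Z)) 0 := inferInstance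
    have hge : t.IsGE ((t.truncLE 0).obj ((t.truncGE 0).obj Z)) 0 := inferInstance
    obtain ⟨A, ⟨e⟩⟩ := hess _ hle hge
    have hfac : h = (Functor.Monoidal.εIso i).hom ≫
        i.map (i.preimage ((Functor.Monoidal.εIso i).inv ≫ h ≫ e.hom)) ≫ e.inv := by
      rw [i.map_preimage, Category.assoc, Category.assoc, Iso.hom_inv_id_assoc, Iso.hom_inv_id,
        Category.comp_id]
    refine ⟨A, i.preimage ((Functor.Monoidal.εIso i).inv ≫ h ≫ e.hom), _, _,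
      (t.truncLEι 0).app ((t.truncGE 0).obj Z), (t.truncGEπ 1).app ((t.truncGE 0).obj Z), _, hd,
      e.symm, ?_, ?_, hge, ?_⟩
    · intro ha
      apply hf
      rw [ha, i.map_zero, zero_comp, comp_zero] at hfac
      rw [hh, hfac, zero_comp]
    · infer_instance
    · rw [Iso.symm_hom, ← hfac]
      exact hh
  by_cases hf : f ≫ (t.truncGEπ 0).app X = 0
  · exact Or.inl (caseA f hf)
  by_cases hg : g ≫ (t.truncGEπ 0).app Y = 0
  · exact Or.inr (caseA g hg)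
  exfalso
  obtain ⟨A, a, X₂, X₃, u, v, w, hT1, e1, ha, hX3, hX2, hfe⟩ := fac f hf
  obtain ⟨B, b, Y₂, Y₃, u', v', w', hT2, e2, hb', hY3, hY2, hge⟩ := fac g hg
  apply hdom A B a b ha hb'
  have h0 : (f ≫ (t.truncGEπ 0).app X) ⊗ₘ (g ≫ (t.truncGEπ 0).app Y) = 0 := by
    rw [← MonoidalCategory.tensorHom_comp_tensorHom, hfg, zero_comp]
  rw [hfe, hge] at h0
  set E := (Functor.Monoidal.εIso i) with hE
  have h3 : ((E.hom ≫ i.map a ≫ e1.hom) ⊗ₘ (E.hom ≫ i.map b ≫ e2.hom)) ≫ (u ⊗ₘ u') = 0 := by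
    rw [MonoidalCategory.tensorHom_comp_tensorHom]
    exact h0
  rw [MonoidalCategory.tensorHom_def u u', ← Category.assoc] at h3
  have h4 : ((E.hom ≫ i.map a ≫ e1.hom) ⊗ₘ (E.hom ≫ i.map b ≫ e2.hom)) ≫
      u ▷ Y₂ = 0 := by
    refine inj_of_triangle t _ ((tensorLeft ((t.truncGE 0).obj X)).map_distinguished _ hT2)
      ?_ h11 _ h3
    have := isGE_tensor t hb i hi hess ((t.truncGE 0).obj X) Y₃ 0 1 inferInstance hY3
    rw [zero_add] at this
    exact this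
  have h5 : (E.hom ≫ i.map a ≫ e1.hom) ⊗ₘ (E.hom ≫ i.map b ≫ e2.hom) = 0 := by
    refine inj_of_triangle t _ ((tensorRight Y₂).map_distinguished _ hT1) ?_ h11 _ h4
    have := isGE_tensor t hb i hi hess X₃ Y₂ 1 0 hX3 hY2
    rw [add_zero] at this
    exact this
  have h6 : (E.hom ⊗ₘ E.hom) ≫ (i.map a ⊗ₘ i.map b) ≫ (e1.hom ⊗ₘ e2.hom) = 0 := by
    rw [MonoidalCategory.tensorHom_comp_tensorHom, MonoidalCategory.tensorHom_comp_tensorHom]
    exact h5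
  have h7 : i.map a ⊗ₘ i.map b = 0 := by
    rw [← cancel_mono (e1.hom ⊗ₘ e2.hom), ← cancel_epi (E.hom ⊗ₘ E.hom), h6]
    simp
  have h8 : i.map (a ⊗ₘ b) = 0 := by
    have := Functor.LaxMonoidal.μ_natural i a b
    rw [h7, zero_comp] at this
    rw [← cancel_epi (Functor.LaxMonoidal.μ i (𝟙_ C) (𝟙_ C)), ← this, comp_zero]
  exact i.map_injective (by rw [h8, i.map_zero])

end tensor

end Pool.Agent.Lib.MP_93437d_al
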