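import Mathlib

open CategoryTheory MonoidalCategory Limits

namespace Pool.Agent.Lib.MP_93437d_al

universe v u

variable {C : Type u} [Category.{v} C] [Abelian C] [MonoidalCategory C] [MonoidalPreadditive C]
  [RigidCategory C]

omit [Abelian C] [MonoidalPreadditive C] in
theorem mono_whiskerRight {X Y : C} (f : X ⟶ Y) [Mono f] (Z : C) : Mono (f ▷ Z) := by
  have adj := tensorRightAdjunction (ᘁZ) Z
  have := adj.rightAdjoint_preservesLimits
  have h : Mono ((tensorRight Z).map f) := inferInstance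
  exact h

omit [Abelian C] [MonoidalPreadditive C] in
theorem mono_whiskerLeft {X Y : C} (f : X ⟶ Y) [Mono f] (Z : C) : Mono (Z ◁ f) := by
  have adj := tensorLeftAdjunction Z (Zᘁ)
  have := adj.rightAdjoint_preservesLimits
  have h : Mono ((tensorLeft Z).map f) := inferInstance
  exact h

omit [Abelian C] [MonoidalPreadditive C] in
theorem epi_whiskerLeft {X Y : C} (f : X ⟶ Y) [Epi f] (Z : C) : Epi (Z ◁ f) := by
  have adj := tensorLeftAdjunction (ᘁZ) Z
  have := adj.leftAdjoint_preservesColimits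
  have h : Epi ((tensorLeft Z).map f) := inferInstance
  exact h

/-- the mate of a mono is epi -/
theorem epi_mate {X Y : C} (i : X ⟶ Y) [Mono i] [HasRightDual X] [HasRightDual Y] :
    Epi (iᘁ) := by
  apply Preadditive.epi_of_cancel_zero
  intro Z g hg
  have h1 : (η_ X (Xᘁ) ≫ X ◁ g) ≫ i ▷ Z = 0 := by
    rw [Category.assoc, whisker_exchange, ← Category.assoc, ← coevaluation_comp_rightAdjointMate,
      Category.assoc, ← MonoidalCategory.whiskerLeft_comp, hg]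
    simp
  have := mono_whiskerRight i Z
  have h2 : η_ X (Xᘁ) ≫ X ◁ g = 0 := by
    rw [← cancel_mono (i ▷ Z), h1, zero_comp]
  have h3 : (ρ_ (Xᘁ)).hom ≫ g = 0 := by
    apply (tensorLeftHomEquiv (𝟙_ C) X (Xᘁ) Z).injective
    have e1 : (tensorLeftHomEquiv (𝟙_ C) X (Xᘁ) Z) 0 = 0 := by
      simp [tensorLeftHomEquiv]
    rw [e1]
    have e2 : (tensorLeftHomEquiv (𝟙_ C) X (Xᘁ) Z) ((ρ_ (Xᘁ)).hom ≫ g) = η_ X (Xᘁ) ≫ X ◁ g := by
      simp only [tensorLeftHomEquiv, Equiv.coe_fn_mk]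
      monoidal
    rw [e2, h2]
  rw [← cancel_epi (ρ_ (Xᘁ)).hom, h3, comp_zero]

omit [RigidCategory C] in
theorem coev_ne_zero {X : C} [HasRightDual X] (hX : ¬ IsZero X) : η_ X (Xᘁ) ≠ 0 := by
  intro h
  have h1 := ExactPairing.evaluation_coevaluation X (Xᘁ)
  rw [h] at h1
  simp only [MonoidalPreadditive.zero_whiskerRight, zero_comp] at h1
  apply hX
  rw [IsZero.iff_id_eq_zero]
  have : 𝟙 X = (λ_ X).inv ≫ ((λ_ X).hom ≫ (ρ_ X).inv) ≫ (ρ_ X).hom := by simp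
  rw [this, ← h1]
  simp

/-- In a rigid abelian monoidal category such that the unit is artinian, nonzero and every
nonzero endomorphism of the unit is invertible, the unit object is simple. -/
theorem simple_unit [IsArtinianObject (𝟙_ C)] (h0 : ¬ IsZero (𝟙_ C))
    (hend : ∀ f : 𝟙_ C ⟶ 𝟙_ C, f ≠ 0 → IsIso f) : Simple (𝟙_ C) := by
  let X : C := simpleSubobject h0
  let i : X ⟶ 𝟙_ C := simpleSubobjectArrow h0
  haveI hs : Simple X := inferInstance
  haveI hm : Mono i := inferInstance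
  haveI hu : HasRightDual (𝟙_ C) := hasRightDualUnit
  have hX : ¬ IsZero X := Simple.not_isZero X
  -- the epi `X ≅ X ⊗ 𝟙 ⟶ X ⊗ Xᘁ`
  let q : X ⟶ X ⊗ Xᘁ := (ρ_ X).inv ≫ X ◁ (@rightAdjointMate C _ _ X (𝟙_ C) _ hasRightDualUnit i)
  haveI : Epi (@rightAdjointMate C _ _ X (𝟙_ C) _ hasRightDualUnit i) :=
    @epi_mate C _ _ _ _ _ X (𝟙_ C) i hm _ hasRightDualUnit
  haveI : Epi (X ◁ (@rightAdjointMate C _ _ X (𝟙_ C) _ hasRightDualUnit i)) := epi_whiskerLeft _ X
  haveI : Epi q := by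
    change Epi ((ρ_ X).inv ≫ X ◁ (@rightAdjointMate C _ _ X (𝟙_ C) _ hasRightDualUnit i))
    infer_instance
  have hc := coev_ne_zero hX
  have hq : q ≠ 0 := by
    intro hq
    apply hc
    have : 𝟙 (X ⊗ Xᘁ) = 0 := by
      rw [← cancel_epi q, hq]; simp
    rw [← Category.comp_id (η_ X (Xᘁ)), this, comp_zero]
  haveI : IsIso q := isIso_of_epi_of_nonzero hq
  let r : 𝟙_ C ⟶ X := η_ X (Xᘁ) ≫ inv q
  have hr : r ≠ 0 := by
    intro hr
    apply hc
    have : η_ X (Xᘁ) = r ≫ q := by simp [r]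
    rw [this, hr, zero_comp]
  have hri : r ≫ i ≠ 0 := by
    intro h
    apply hr
    rw [← cancel_mono i, h, zero_comp]
  haveI := hend _ hri
  haveI : IsSplitEpi i := IsSplitEpi.mk' ⟨inv (r ≫ i) ≫ r, by
    rw [Category.assoc, IsIso.inv_hom_id]⟩
  haveI : IsIso i := isIso_of_mono_of_isSplitEpi i
  exact Simple.of_iso (asIso i).symm

/-- Nonzero morphisms out of the unit have nonzero tensor product, if the unit is simple. -/
theorem tensor_ne_zero [Simple (𝟙_ C)] {A B : C} {a : 𝟙_ C ⟶ A} {b : 𝟙_ C ⟶ B} (ha : a ≠ 0)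
    (hb : b ≠ 0) : a ⊗ₘ b ≠ 0 := by
  haveI : Mono a := mono_of_nonzero_from_simple ha
  haveI : Mono b := mono_of_nonzero_from_simple hb
  haveI := mono_whiskerRight a (𝟙_ C)
  haveI := mono_whiskerLeft b A
  intro h
  rw [MonoidalCategory.tensorHom_def] at h
  have h1 : a ▷ 𝟙_ C = 0 := by rw [← cancel_mono (A ◁ b), h, zero_comp]
  have h2 : 𝟙 (𝟙_ C ⊗ 𝟙_ C) = 0 := by rw [← cancel_mono (a ▷ 𝟙_ C), h1]; simp
  apply Simple.not_isZero (𝟙_ C)
  rw [IsZero.iff_id_eq_zero]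
  have : 𝟙 (𝟙_ C) = (λ_ (𝟙_ C)).inv ≫ 𝟙 (𝟙_ C ⊗ 𝟙_ C) ≫ (λ_ (𝟙_ C)).hom := by simp
  rw [this, h2]
  simp

end Pool.Agent.Lib.MP_93437d_al
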